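import Pool.Agent.helper19.MX.SpecA

/-!
# Project mx (MP_a875de_ag), row mx:FBP: the polar form
-/

set_option linter.unusedVariables false

namespace MX

open Pool.Agent.helper53.AU AN
open scoped Classical Topology
open Finset (range powerset Icc)

noncomputable section

theorem FBP_split {K : Type} [Field K] [CharP K 2] (h : ℕ) (b : ℕ → K) (z w : K) :
    fb h b (z + w) = (fb h b z + fb h b w) + ∑ i ∈ range (h + 1),
      (b i * z ^ (2 ^ h) * w ^ (2 ^ (h - i)) + b i * w ^ (2 ^ h) * z ^ (2 ^ (h - i))) := by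
  unfold fb
  rw [← Finset.sum_add_distrib, ← Finset.sum_add_distrib]
  apply Finset.sum_congr rfl
  intro i _
  haveI : Fact (Nat.Prime 2) := ⟨Nat.prime_two⟩
  rw [add_pow_char_pow, add_pow_char_pow]
  ring

theorem FBP (hPS1 : PS1_stmt) (hPSS : PSS_stmt) : FBP_stmt := by
  intro K _ _ _ h b z w
  obtain ⟨h0, hadd, -, hpow, -, -⟩ := hPS1 K
  rw [FBP_split, hadd, hadd]
  congr 1
  rw [hPSS K ℕ]
  unfold PP
  rw [Finset.mul_sum, hPSS K ℕ]
  symm
  have hsub : Icc 1 h ⊆ range (h + 1) := by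
    intro i hi
    rw [Finset.mem_Icc] at hi
    rw [Finset.mem_range]
    omega
  rw [← Finset.prod_subset hsub]
  · apply Finset.prod_congr rfl
    intro i hi
    rw [Finset.mem_Icc] at hi
    rw [hadd, ← hpow (b i * w ^ (2 ^ h) * z ^ (2 ^ (h - i))) i, ← hadd]
    congr 1
    have e1 : (w ^ (2 ^ h)) ^ (2 ^ i) = w ^ (2 ^ (h + i)) := by
      rw [← pow_mul, ← pow_add]
    have e2 : (z ^ (2 ^ (h - i))) ^ (2 ^ i) = z ^ (2 ^ h) := by
      rw [← pow_mul, ← pow_add, Nat.sub_add_cancel hi.2]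
    rw [mul_pow, mul_pow, e1, e2]
    ring
  · intro i hi hi'
    have hi0 : i = 0 := by
      rw [Finset.mem_range] at hi
      rw [Finset.mem_Icc] at hi'
      omega
    rw [hi0, Nat.sub_zero]
    have e3 : b 0 * z ^ (2 ^ h) * w ^ (2 ^ h) + b 0 * w ^ (2 ^ h) * z ^ (2 ^ h) = 0 := by
      have e4 : b 0 * w ^ (2 ^ h) * z ^ (2 ^ h) = b 0 * z ^ (2 ^ h) * w ^ (2 ^ h) := by ring
      rw [e4]
      exact CharTwo.add_self_eq_zero _
    rw [e3]
    exact h0

end

end MX
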