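import Pool.Agent.helper19.MX.SpecD

/-!
# Project mx (MP_a875de_ag), row mx:LSP: the place attached to an embedding into `k((t))`
-/

set_option linter.unusedVariables false

namespace MX

open Pool.Agent.helper53.AU AN
open scoped Classical Topology IntermediateField
open Finset (range powerset Icc)

noncomputable section

/-- the order of a Laurent series -/
def LSP_od {k : Type} [Field k] (f : LS k) : ℤ := HahnSeries.order (f : HahnSeries ℤ k)

theorem LSP_zero {k : Type} [Field k] : LSP_od (0 : LS k) = 0 :=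
  HahnSeries.order_zero (Γ := ℤ) (R := k)

theorem LSP_mul {k : Type} [Field k] (f g : LS k) (hf : f ≠ 0) (hg : g ≠ 0) :
    LSP_od (f * g) = LSP_od f + LSP_od g :=
  HahnSeries.order_mul (Γ := ℤ) (R := k) hf hg

theorem LSP_add {k : Type} [Field k] (f g : LS k) (h : f + g ≠ 0) :
    min (LSP_od f) (LSP_od g) ≤ LSP_od (f + g) :=
  HahnSeries.min_order_le_order_add (Γ := ℤ) (R := k) h

theorem LSP_mono {k : Type} [Field k] (n : ℤ) (c : k) (hc : c ≠ 0) : LSP_od (mono n c : LS k) = n :=
  HahnSeries.order_single (Γ := ℤ) (R := k) hc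

theorem LSP_lt {k : Type} [Field k] (f : LS k) (n : ℤ) (h : n < LSP_od f) : cf f n = 0 :=
  HahnSeries.coeff_eq_zero_of_lt_order (Γ := ℤ) (R := k) h

theorem LSP_ge {k : Type} [Field k] (f : LS k) (m : ℤ) (hf : f ≠ 0) (h : ∀ n < m, cf f n = 0) :
    m ≤ LSP_od f := by
  by_contra hlt
  have h1 : cf f (LSP_od f) = 0 := h _ (not_le.mp hlt)
  have h2 : HahnSeries.coeff (f : HahnSeries ℤ k) (HahnSeries.order (f : HahnSeries ℤ k)) = 0 := h1
  exact hf (HahnSeries.coeff_order_eq_zero.mp h2)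

/-- the place -/
def LSP_P {k F : Type} [Field k] [Field F] [Algebra k F] (ψ : F →ₐ[k] LS k) (x : F) (x₀ : k)
    (hx : ψ x = LS.C x₀ + mono 1 1) : Place k F where
  ord f := LSP_od (ψ f)
  ord_zero := by rw [map_zero, LSP_zero]
  ord_mul a b ha hb := by
    rw [map_mul, LSP_mul _ _ ((map_ne_zero ψ).mpr ha) ((map_ne_zero ψ).mpr hb)]
  ord_add a b ha hb hab := by
    rw [map_add]
    apply LSP_add
    rw [← map_add]
    exact (map_ne_zero ψ).mpr hab
  ord_const c hc := by
    rw [AlgHom.commutes, algebraMap_eq, C_eq_mono]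
    exact LSP_mono 0 c hc
  exists_uniformizer := by
    have h1 : ψ (x - algebraMap k F x₀) = mono 1 1 := by
      rw [map_sub, hx, AlgHom.commutes, algebraMap_eq, add_sub_cancel_left]
    have h2 : LSP_od (ψ (x - algebraMap k F x₀)) = 1 := by
      rw [h1]
      exact LSP_mono 1 1 one_ne_zero
    refine ⟨x - algebraMap k F x₀, ?_, h2⟩
    intro h3
    rw [h3, map_zero, LSP_zero] at h2
    exact absurd h2 (by norm_num)

theorem LSP : LSP_stmt := by
  intro k F _ _ _ ψ x x₀ hx
  have key : ∀ f : F, (∀ n < 0, cf (ψ f) n = 0) →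
      (LSP_P ψ x x₀ hx).Ge 1 (f - algebraMap k F (cf (ψ f) 0)) := by
    intro f hf
    by_cases h0 : f - algebraMap k F (cf (ψ f) 0) = 0
    · exact Or.inl h0
    · right
      show 1 ≤ LSP_od (ψ (f - algebraMap k F (cf (ψ f) 0)))
      apply LSP_ge _ _ ((map_ne_zero ψ).mpr h0)
      intro n hn
      rw [map_sub, AlgHom.commutes, algebraMap_eq, cf_sub, cf_C]
      rcases lt_or_eq_of_le (Int.lt_add_one_iff.mp (by simpa using hn) : n ≤ 0) with h1 | h1
      · rw [hf n h1, if_neg (by omega), sub_zero]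
      · rw [h1, if_pos rfl, sub_self]
  refine ⟨LSP_P ψ x x₀ hx, ?_, key⟩
  intro f hf
  refine ⟨cf (ψ f) 0, key f ?_⟩
  rcases hf with h | h
  · intro n _
    rw [h, map_zero, cf_zero]
  · intro n hn
    exact LSP_lt _ _ (lt_of_lt_of_le hn h)

end

end MX
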